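import Mathlib
import Pool.Agent.H239R2.Cover.Orient

set_option autoImplicit false

/-!
The tree-connectivity statement for all stars: a simple graph with `m` edge-disjoint spanning
trees and a number of edges divisible by `m` has a decomposition into copies of the star with `m`
edges.
-/

namespace Pool.Agent.Results.MP_1c8ed6_co.Stars

open Pool.Agent.H239R2.Cover (tail outdeg Leaves Connects orientation_of_packing)
open Finset

/-- Let `T` be a star (a tree with a vertex `c` in every edge) with `m` edges and let `G` be a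
finite simple graph with `m` pairwise edge-disjoint spanning trees whose number of edges is
divisible by `m`. Then the edges of `G` split into edge-disjoint copies of `T`. -/
theorem result :
    ∀ {V : Type} [Fintype V] [DecidableEq V] (G : SimpleGraph V) [DecidableRel G.Adj]
      {W : Type} [Fintype W] [DecidableEq W] (T : SimpleGraph W) [DecidableRel T.Adj],
      T.IsTree →
      (∃ c : W, ∀ u v : W, T.Adj u v → u = c ∨ v = c) →
      (∃ F : Fin T.edgeFinset.card → SimpleGraph V,
          (∀ i, F i ≤ G ∧ (F i).IsTree) ∧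
          Pairwise (fun i j => Disjoint (F i) (F j))) →
      T.edgeFinset.card ∣ G.edgeFinset.card →
      ∃ (n : ℕ) (H : Fin n → G.Subgraph),
        (∀ i, Nonempty (T ≃g (H i).coe)) ∧
        Pairwise (fun i j => Disjoint (H i).edgeSet (H j).edgeSet) ∧
        (∀ e ∈ G.edgeSet, ∃ i, e ∈ (H i).edgeSet) := by
  classical
  intro V _ _ G _ W _ _ T _ hT hstar hF hdvd
  obtain ⟨c, hc⟩ := hstar
  -- the star
  have hcardW : T.edgeFinset.card + 1 = Fintype.card W := hT.card_edgeFinset
  generalize T.edgeFinset.card = m at hF hdvd hcardW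
  obtain ⟨F, hF, hFd⟩ := hF
  have hcw : ∀ w, w ≠ c → T.Adj c w := by
    intro w hw
    obtain ⟨p⟩ := hT.1.preconnected w c
    cases p with
    | nil => exact absurd rfl hw
    | cons h _ =>
      rcases hc _ _ h with h1 | h1
      · exact absurd h1 hw
      · rw [h1] at h; exact h.symm
  have hTadj : ∀ u w, T.Adj u w ↔ (u = c ∧ w ≠ c) ∨ (w = c ∧ u ≠ c) := by
    intro u w
    constructor
    · intro h
      rcases hc _ _ h with h1 | h1
      · left; exact ⟨h1, fun h2 => h.ne (h1.trans h2.symm)⟩
      · right; exact ⟨h1, fun h2 => h.ne (h2.trans h1.symm)⟩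
    · rintro (⟨rfl, h⟩ | ⟨rfl, h⟩)
      · exact hcw w h
      · exact (hcw u h).symm
  rcases Nat.eq_zero_or_pos m with hm0 | hmpos
  · -- no edges
    rw [hm0, zero_dvd_iff, Finset.card_eq_zero] at hdvd
    refine ⟨0, fun i => i.elim0, fun i => i.elim0, fun i => i.elim0, ?_⟩
    intro e he
    rw [← SimpleGraph.mem_edgeFinset, hdvd] at he
    exact absurd he (Finset.notMem_empty e)
  have : NeZero m := ⟨hmpos.ne'⟩
  have hleaf : Fintype.card {w : W // w ≠ c} = m := by
    rw [Fintype.card_subtype_compl, Fintype.card_subtype_eq]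
    omega
  let ι : {w : W // w ≠ c} ≃ Fin m := Fintype.equivFinOfCardEq hleaf
  -- the edges
  have hex : ∀ e : G.edgeSet, ∃ p : V × V, s(p.1, p.2) = e.1 := by
    intro e
    induction e.1 using Sym2.ind with
    | _ x y => exact ⟨(x, y), rfl⟩
  choose p hp using hex
  let src : G.edgeSet → V := fun e => (p e).1
  let dst : G.edgeSet → V := fun e => (p e).2
  have hsd : ∀ e : G.edgeSet, s(src e, dst e) = e.1 := hp
  let I : Fin m → Finset G.edgeSet := fun j => univ.filter (fun e => e.1 ∈ (F j).edgeSet)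
  have hId : ∀ i j, i ≠ j → Disjoint (I i) (I j) := by
    intro i j hij
    rw [Finset.disjoint_left]
    intro e hi hj
    simp only [I, Finset.mem_filter, Finset.mem_univ, true_and] at hi hj
    have h1 := hFd hij
    rw [← hsd e, SimpleGraph.mem_edgeSet] at hi hj
    have h2 : (F i ⊓ F j).Adj (src e) (dst e) := ⟨hi, hj⟩
    rw [disjoint_iff] at h1
    rw [h1] at h2
    exact h2
  have hIc : ∀ j, Connects src dst (I j) := by
    intro j X hX hXu
    obtain ⟨x, hx⟩ := hX
    obtain ⟨y, hy⟩ : ∃ y, y ∉ X := by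
      by_contra hcon
      push Not at hcon
      exact hXu (Finset.eq_univ_iff_forall.mpr hcon)
    obtain ⟨q⟩ := (hF j).2.1.preconnected x y
    have key : ∀ (a b : V) (q : (F j).Walk a b), a ∈ X → b ∉ X →
        ∃ u v, (F j).Adj u v ∧ u ∈ X ∧ v ∉ X := by
      intro a b q
      induction q with
      | nil => intro h1 h2; exact absurd h1 h2
      | @cons a b' b h q ih =>
        intro h1 h2
        by_cases h3 : b' ∈ X
        · exact ih h3 h2
        · exact ⟨a, b', h, h1, h3⟩
    obtain ⟨u, v, huv, hu, hv⟩ := key x y q hx hy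
    have huvG : G.Adj u v := (hF j).1 huv
    refine ⟨⟨s(u, v), huvG⟩, ?_, ?_⟩
    · simp only [I, Finset.mem_filter, Finset.mem_univ, true_and]
      exact huv
    · have h1 : s(src ⟨s(u, v), huvG⟩, dst ⟨s(u, v), huvG⟩) = s(u, v) := hsd ⟨s(u, v), huvG⟩
      rw [Sym2.eq_iff] at h1
      rcases h1 with ⟨h2, h3⟩ | ⟨h2, h3⟩
      · intro h4
        rw [h2, h3] at h4
        exact hv (h4.mp hu)
      · intro h4
        rw [h2, h3] at h4
        exact hv (h4.mpr hu)
  have hEcard : Fintype.card G.edgeSet = G.edgeFinset.card := by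
    rw [SimpleGraph.edgeFinset_card]
  obtain ⟨o, ho⟩ := orientation_of_packing src dst m hmpos I hId hIc (fun _ => 0) (by
    rw [Finset.sum_const_zero, hEcard]
    exact ((ZMod.natCast_eq_zero_iff _ _).mpr hdvd).symm)
  have hdv : ∀ v, m ∣ outdeg src dst o v := fun v => (ZMod.natCast_eq_zero_iff _ _).mp (ho v)
  choose q hq using hdv
  -- enumeration of the edges leaving a vertex
  let O : V → Type := fun v => {e : G.edgeSet // tail src dst o e = v}
  have hOcard : ∀ v, Fintype.card (O v) = q v * m := by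
    intro v
    rw [Fintype.card_subtype, mul_comm]
    exact hq v
  let η : ∀ v, O v ≃ Fin (q v) × Fin m := fun v =>
    (Fintype.equivFinOfCardEq (hOcard v)).trans finProdFinEquiv.symm
  let head : G.edgeSet → V := fun e => if o e then dst e else src e
  have hth : ∀ e, s(tail src dst o e, head e) = e.1 := by
    intro e
    simp only [tail, head]
    by_cases h : o e = true
    · rw [if_pos h, if_pos h]; exact hsd e
    · rw [if_neg h, if_neg h, Sym2.eq_swap]; exact hsd e
  let φ : ∀ v, Fin (q v) → Fin m → G.edgeSet := fun v a b => ((η v).symm (a, b)).1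
  have hφt : ∀ v a b, tail src dst o (φ v a b) = v := fun v a b => ((η v).symm (a, b)).2
  have hφinj : ∀ v a b a' b', φ v a b = φ v a' b' → a = a' ∧ b = b' := by
    intro v a b a' b' h
    have h1 : (η v).symm (a, b) = (η v).symm (a', b') := Subtype.ext h
    have h2 := (η v).symm.injective h1
    exact Prod.mk.inj h2
  have hφsurj : ∀ e : G.edgeSet, ∃ a b, φ (tail src dst o e) a b = e := by
    intro e
    refine ⟨(η (tail src dst o e) ⟨e, rfl⟩).1, (η (tail src dst o e) ⟨e, rfl⟩).2, ?_⟩
    simp only [φ, Prod.mk.eta, Equiv.symm_apply_apply]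
  let ℓ : ∀ v, Fin (q v) → Fin m → V := fun v a b => head (φ v a b)
  have hℓe : ∀ v a b, s(v, ℓ v a b) = (φ v a b).1 := by
    intro v a b
    have := hth (φ v a b)
    rw [hφt] at this
    exact this
  have hℓadj : ∀ v a b, G.Adj v (ℓ v a b) := by
    intro v a b
    have h1 : (φ v a b).1 ∈ G.edgeSet := (φ v a b).2
    rw [← hℓe] at h1
    exact h1
  have hℓinj : ∀ v a b b', ℓ v a b = ℓ v a b' → b = b' := by
    intro v a b b' h
    have h1 : (φ v a b).1 = (φ v a b').1 := by rw [← hℓe, ← hℓe, h]
    exact (hφinj v a b a b' (Subtype.ext h1)).2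
  let S : ∀ v, Fin (q v) → G.Subgraph := fun v a =>
    { verts := {u | u = v ∨ ∃ b, ℓ v a b = u}
      Adj := fun x y => (x = v ∧ ∃ b, ℓ v a b = y) ∨ (y = v ∧ ∃ b, ℓ v a b = x)
      adj_sub := by
        rintro x y (⟨rfl, b, rfl⟩ | ⟨rfl, b, rfl⟩)
        · exact hℓadj _ a b
        · exact (hℓadj _ a b).symm
      edge_vert := by
        rintro x y (⟨rfl, b, rfl⟩ | ⟨rfl, b, rfl⟩)
        · exact Or.inl rfl
        · exact Or.inr ⟨b, rfl⟩
      symm := ⟨by
        intro x y h
        rcases h with h | h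
        · exact Or.inr h
        · exact Or.inl h⟩ }
  have hSe : ∀ v a (e : Sym2 V), e ∈ (S v a).edgeSet ↔ ∃ b, (φ v a b).1 = e := by
    intro v a e
    induction e using Sym2.ind with
    | _ x y =>
      rw [SimpleGraph.Subgraph.mem_edgeSet]
      constructor
      · rintro (⟨rfl, b, rfl⟩ | ⟨rfl, b, rfl⟩)
        · exact ⟨b, (hℓe _ a b).symm⟩
        · refine ⟨b, ?_⟩
          rw [← hℓe, Sym2.eq_swap]
      · rintro ⟨b, hb⟩
        rw [← hℓe, Sym2.eq_iff] at hb
        rcases hb with ⟨h1, h2⟩ | ⟨h1, h2⟩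
        · exact Or.inl ⟨h1.symm, b, h2⟩
        · exact Or.inr ⟨h1.symm, b, h2⟩
  have hiso : ∀ v a, Nonempty (T ≃g (S v a).coe) := by
    intro v a
    let f : W → (S v a).verts := fun w =>
      if h : w = c then ⟨v, Or.inl rfl⟩ else ⟨ℓ v a (ι ⟨w, h⟩), Or.inr ⟨_, rfl⟩⟩
    have hfc : (f c).1 = v := by simp [f]
    have hfw : ∀ w (h : w ≠ c), (f w).1 = ℓ v a (ι ⟨w, h⟩) := by
      intro w h
      simp [f, h]
    have hne : ∀ b, ℓ v a b ≠ v := fun b h => (hℓadj v a b).ne h.symm
    have hfinj : Function.Injective f := by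
      intro w w' h
      have h' := congrArg Subtype.val h
      by_cases h1 : w = c
      · by_cases h2 : w' = c
        · rw [h1, h2]
        · rw [h1, hfc, hfw w' h2] at h'
          exact absurd h'.symm (hne _)
      · by_cases h2 : w' = c
        · rw [h2, hfc, hfw w h1] at h'
          exact absurd h' (hne _)
        · rw [hfw w h1, hfw w' h2] at h'
          have h3 := ι.injective (hℓinj v a _ _ h')
          exact congrArg Subtype.val h3
    have hfsurj : Function.Surjective f := by
      rintro ⟨u, hu⟩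
      rcases hu with hu | ⟨b, hb⟩
      · exact ⟨c, Subtype.ext (hfc.trans hu.symm)⟩
      · refine ⟨(ι.symm b).1, Subtype.ext ?_⟩
        rw [hfw _ (ι.symm b).2]
        simpa using hb
    refine ⟨⟨Equiv.ofBijective f ⟨hfinj, hfsurj⟩, ?_⟩⟩
    intro u w
    rw [hTadj]
    change (S v a).Adj (f u).1 (f w).1 ↔ _
    have hv : ∀ w, (f w).1 = v ↔ w = c := by
      intro w
      constructor
      · intro h
        by_contra h1
        rw [hfw w h1] at h
        exact hne _ h
      · rintro rfl; exact hfc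
    have hl : ∀ w, (∃ b, ℓ v a b = (f w).1) ↔ w ≠ c := by
      intro w
      constructor
      · rintro ⟨b, hb⟩ h
        rw [h, hfc] at hb
        exact hne _ hb
      · intro h
        exact ⟨ι ⟨w, h⟩, (hfw w h).symm⟩
    change ((f u).1 = v ∧ ∃ b, ℓ v a b = (f w).1) ∨ ((f w).1 = v ∧ ∃ b, ℓ v a b = (f u).1) ↔ _
    rw [hv, hv, hl, hl]
  -- collect
  let J : Type := Σ v, Fin (q v)
  let eqv : Fin (Fintype.card J) ≃ J := (Fintype.equivFin J).symm
  refine ⟨Fintype.card J, fun i => S (eqv i).1 (eqv i).2, fun i => hiso _ _, ?_, ?_⟩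
  · intro i j hij
    rw [Set.disjoint_left]
    intro e hi hj
    rw [hSe] at hi hj
    obtain ⟨b, hb⟩ := hi
    obtain ⟨b', hb'⟩ := hj
    apply hij
    apply eqv.injective
    have h1 : φ (eqv i).1 (eqv i).2 b = φ (eqv j).1 (eqv j).2 b' :=
      Subtype.ext (hb.trans hb'.symm)
    generalize eqv i = x at h1
    generalize eqv j = y at h1
    obtain ⟨x1, x2⟩ := x
    obtain ⟨y1, y2⟩ := y
    have h2 : x1 = y1 := by
      have h3 := congrArg (tail src dst o) h1
      rw [hφt, hφt] at h3
      exact h3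
    subst h2
    have h3 := (hφinj _ _ _ _ _ h1).1
    simp only at h3
    rw [h3]
  · intro e he
    obtain ⟨a, b, hab⟩ := hφsurj ⟨e, he⟩
    refine ⟨eqv.symm ⟨_, a⟩, ?_⟩
    rw [hSe, Equiv.apply_symm_apply]
    exact ⟨b, congrArg Subtype.val hab⟩

end Pool.Agent.Results.MP_1c8ed6_co.Stars
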